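import Pool.Agent.MP_1c0fc2_co.Final

namespace Pool.Agent.MP_1c0fc2_co.Old.SingleCoreIsolated

open Pool.Agent.MP_1c0fc2_co

theorem result {α β : Type} [Finite α] [Finite β] (H : SimpleGraph α) (H' : SimpleGraph β)
    (hH : H.Connected) (hcyc : ¬ H.IsAcyclic)
    (he : ∃ e ∈ H.edgeSet, twoDensity (H.deleteEdges {e}) < twoDensity H)
    (hH' : H'.Connected)
    (h : ∀ (V : Type) [Finite V] (G : SimpleGraph V), Arrows G H ↔ Arrows G H') :
    Nonempty (H ≃g H') :=
  single_core_isolated H H' hH hcyc he hH' h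

end Pool.Agent.MP_1c0fc2_co.Old.SingleCoreIsolated
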