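import Pool.Agent.MP_1c0fc2_co.Main

namespace Pool.Agent.MP_1c0fc2_co.Old.TreesIsolated

open Pool.Agent.MP_1c0fc2_co

theorem result {α β : Type} [Finite α] [Finite β] (T : SimpleGraph α) (H : SimpleGraph β)
    (hT : T.IsTree) (hH : H.Connected)
    (h : ∀ (V : Type) [Finite V] (G : SimpleGraph V), Arrows G T ↔ Arrows G H) :
    Nonempty (T ≃g H) :=
  tree_isolated T H hT hH h

end Pool.Agent.MP_1c0fc2_co.Old.TreesIsolated
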